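import Mathlib

set_option autoImplicit false

namespace Pool.Agent.Results.MP_2fa119_al.Nil

open Polynomial

/-- An ideal of an algebra with one binary operation. -/
def IsIdeal {k A : Type} [Field k] [NonUnitalNonAssocRing A] [Module k A] (I : Submodule k A) : Prop :=
  ∀ x ∈ I, ∀ a : A, x * a ∈ I ∧ a * x ∈ I

/-- A strong form of primeness: two nonzero ideals contain elements with nonzero product. -/
def StronglyPrime (k A : Type) [Field k] [NonUnitalNonAssocRing A] [Module k A] : Prop :=
  ∀ I J : Submodule k A, IsIdeal I → IsIdeal J → I ≠ ⊥ → J ≠ ⊥ → ∃ x ∈ I, ∃ y ∈ J, x * y ≠ 0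

/-- f is a polynomial identity of A. -/
def IsIdentity (k A : Type) [Field k] [NonUnitalNonAssocRing A] [Module k A] [IsScalarTower k A A]
    [SMulCommClass k A A] (f : FreeNonUnitalNonAssocAlgebra k ℕ) : Prop :=
  ∀ φ : ℕ → A, FreeNonUnitalNonAssocAlgebra.lift k φ f = 0

variable (k : Type) [Field k]

abbrev B := ∀ n : ℕ, k[X] ⧸ Ideal.span {(X : k[X]) ^ n}

def Nil : NonUnitalSubalgebra k (B k) where
  carrier := {b | IsNilpotent b}
  add_mem' := fun ha hb => (Commute.all _ _).isNilpotent_add ha hb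
  zero_mem' := IsNilpotent.zero
  mul_mem' := fun ha _ => (Commute.all _ _).isNilpotent_mul_right ha
  smul_mem' := fun c _ ha => ha.smul c

theorem result (k : Type) [Field k] [IsAlgClosed k] :
    ∃ (A A' : Type) (_ : NonUnitalNonAssocRing A) (_ : Module k A) (_ : IsScalarTower k A A)
      (_ : SMulCommClass k A A) (_ : NonUnitalNonAssocRing A') (_ : Module k A')
      (_ : IsScalarTower k A' A') (_ : SMulCommClass k A' A'),
      FiniteDimensional k A ∧ StronglyPrime k A ∧ (∀ f, IsIdentity k A' f → IsIdentity k A f) ∧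
        ¬ ∃ (R : NonUnitalSubalgebra k A') (π : R →ₙₐ[k] A), Function.Surjective π := by
  refine ⟨k, Nil k, inferInstance, inferInstance, inferInstance, inferInstance, inferInstance,
    inferInstance, inferInstance, inferInstance, inferInstance, ?_, ?_, ?_⟩
  · intro I J _ _ hI hJ
    obtain ⟨x, hx, hx0⟩ := (Submodule.ne_bot_iff I).1 hI
    obtain ⟨y, hy, hy0⟩ := (Submodule.ne_bot_iff J).1 hJ
    exact ⟨x, hx, y, hy, mul_ne_zero hx0 hy0⟩
  · intro f hf ψ
    let G : FreeNonUnitalNonAssocAlgebra k ℕ →ₙₐ[k] k[X] :=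
      FreeNonUnitalNonAssocAlgebra.lift k fun i => ψ i • X
    have hG : G f = 0 := by
      have hn : ∀ n, X ^ n ∣ G f := by
        intro n
        have hnil : ∀ i, (Pi.single n (Ideal.Quotient.mk _ (ψ i • X)) : B k) ∈ Nil k := by
          intro i
          refine ⟨n + 1, funext fun m => ?_⟩
          by_cases hm : m = n
          · subst hm
            rw [Pi.pow_apply, Pi.single_eq_same, ← map_pow, Pi.zero_apply, Ideal.Quotient.eq_zero_iff_mem,
              Ideal.mem_span_singleton, _root_.smul_pow, pow_succ X, ← mul_smul_comm]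
            exact dvd_mul_right _ _
          · rw [Pi.pow_apply, Pi.single_eq_of_ne hm, zero_pow (Nat.succ_ne_zero n), Pi.zero_apply]
        let H : Nil k →ₙₐ[k] (k[X] ⧸ Ideal.span {(X : k[X]) ^ n}) :=
          (Pi.evalAlgHom k (fun n : ℕ => k[X] ⧸ Ideal.span {(X : k[X]) ^ n}) n).toNonUnitalAlgHom.comp
            (NonUnitalSubalgebraClass.subtype (Nil k))
        have h1 : H.comp (FreeNonUnitalNonAssocAlgebra.lift k fun i => (⟨_, hnil i⟩ : Nil k)) =
            (Ideal.Quotient.mkₐ k (Ideal.span {(X : k[X]) ^ n})).toNonUnitalAlgHom.comp G := by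
          refine FreeNonUnitalNonAssocAlgebra.hom_ext k fun i => ?_
          simp only [NonUnitalAlgHom.comp_apply, G, FreeNonUnitalNonAssocAlgebra.lift_of_apply]
          exact Pi.single_eq_same _ _
        have h2 := DFunLike.congr_fun h1 f
        rw [NonUnitalAlgHom.comp_apply, hf, map_zero] at h2
        exact Ideal.mem_span_singleton.1 (Ideal.Quotient.eq_zero_iff_mem.1 h2.symm)
      by_contra h0
      have := natDegree_le_of_dvd (hn ((G f).natDegree + 1)) h0
      simp at this
    have h1 : (aeval (1 : k) : k[X] →ₐ[k] k).toNonUnitalAlgHom.comp G =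
        FreeNonUnitalNonAssocAlgebra.lift k ψ := by
      refine FreeNonUnitalNonAssocAlgebra.hom_ext k fun i => ?_
      simp only [NonUnitalAlgHom.comp_apply, G, FreeNonUnitalNonAssocAlgebra.lift_of_apply]
      show aeval (1 : k) (ψ i • X) = ψ i
      simp
    rw [← h1, NonUnitalAlgHom.comp_apply, hG, map_zero]
  · rintro ⟨R, π, hπ⟩
    obtain ⟨r, hr⟩ := hπ 1
    obtain ⟨n, hn⟩ := r.1.2
    have : ∀ m : ℕ, ∃ s : R, π s = 1 ∧ (s.1.1 : B k) = r.1.1 ^ (m + 1) := by
      intro m
      induction m with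
      | zero => exact ⟨r, hr, (pow_one _).symm⟩
      | succ m ih =>
        obtain ⟨s, h1, h2⟩ := ih
        exact ⟨s * r, by rw [map_mul, h1, hr, one_mul], by rw [pow_succ, ← h2]; rfl⟩
    obtain ⟨s, h1, h2⟩ := this n
    rw [pow_succ, hn, zero_mul] at h2
    have h3 : s = 0 := Subtype.ext (Subtype.ext h2)
    rw [h3, map_zero] at h1
    exact zero_ne_one h1

end Pool.Agent.Results.MP_2fa119_al.Nil
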